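import Pool.Agent.K1H70.KQ.Step3
import Pool.Agent.K1H70.KT.Tw
import Pool.Agent.K1H24.KQ.Det
import Pool.Agent.K1H99.KQ.Inv
import Pool.Agent.K1H37.KQ.Act
import Pool.Agent.K1H93.KQ.Unq
import Pool.Agent.K1H28.KQ.Prf
import Pool.Agent.K1H68.KG.Sub

set_option autoImplicit false

/-! # The twisted strong monodromy conjecture for path determinants of framed quivers

Let `Q` be a quiver with the vertices `I`, the arrows `b : s b → t b` (`b ∈ α`, loops, multiple arrows and
cycles allowed), and framing vectors `l ∈ ρ` at the vertices `ν l`; let the arrows have the weights `ω b`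
and the vectors the numbers `d l`; let `T_i` be the set of the pairs `(w, l)` of a path `w` from `ν l` to `i`
of weight less than `d l`, let `V_i` be a space of the dimension `|T_i|`, and let `A_b : V_{s b} → V_{t b}`,
`v_l ∈ V_{ν l}` be a generic representation. Let

  `f = ∏_i (det (A_w v_l)_{(w, l) ∈ T_i}) ^ (a i)`   (`FQ`)

with arbitrary exponents `a i`. One vertex and one loop: `f = det (A ^ i v_j)_{i < d_j}`, for instance the
determinant of the cyclic vector `det (v, A v, …, A ^ (m - 1) v)`. One vertex and several loops: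
`det (v, A v, B v)` and so on. Two vertices and one arrow: `det (v_1, …, v_k) ^ a
det (A v_1, …, A v_k, w_1, …, w_l) ^ b`. With an oriented cycle the traces along the cycle are invariants
of the group of symmetries, so these are not prehomogeneous spaces.

For a basis element `x ∈ E` of `V_i` (`vt x = i`) let `(w, l) ∈ T_i` be its row, `lev x = d l - ω(w)`, and
`c_x = ∑_{i'} a i' (number of paths from i to i' of weight < lev x)` (`cE`), and let the `μ_x` be
`1, …, dim V_i` in such an order that the levels increase (`ProfQ`).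

The resolution. Let `d_j` be maximal and `i = ν j`. Blow up `{v_j = 0}`, of the codimension `dim V_i`. In a
chart `v_j = t u` with `u ≠ 0`; a local section `g(u) ∈ GL(V_i)`, `g(u) e_0 = u`, transforms `u` to `e_0`,
and for `v_j = e_0` the determinants are, up to the sign, the determinants of the same kind for the
quotient of `V_i` by `e_0`, in which `v_j` is replaced by the first columns of the `A_b`, `s b = i`, with the
numbers `d_j - ω b`: so locally `f = (unit) t ^ c f'(y)`, where `c` is the degree of `f` in `v_j` and the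
coordinates `y` of the quotient data are independent of `t` and `u`. The centres of the next steps do not
depend on the section. After `|E|` steps (blowing up a divisor changes nothing) `f` is a unit times
`∏_x t_x ^ (c_x)`, and the Jacobian determinant is a unit times `∏_x t_x ^ (μ_x - 1)`: an embedded
resolution whose components `E_x`, `x ∈ E` with `c_x > 0`, have the numerical data `(μ_x, c_x)`. So the
twisted topological zeta function `Z^(e)` is the sum of `χ_I ∏_{x ∈ I} 1 / (c_x s + μ_x)` over the nonempty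
`I` with `e ∣ c_x` for all `x ∈ I` (`twZ`).

The proof does not use the resolution: `b_f(s) = ∏_x ∏_{j < c_x} (s + (μ_x + j) / c_x)` is computed with the
pairing `⟨,⟩` of polynomials for which `∂_x` is adjoint to `x`.

* For each operator `P` of the Weyl algebra, `⟨f ^ (n + 1), P f ^ n⟩ = q(n) ⟨f ^ (n + 1), f ^ (n + 1)⟩` with
  a polynomial `q` (`fc_all`): modulo commutators with the vector fields of the symmetries of `f` one may
  assume that `P f ^ n` is killed by these (`S_REYN`); the pairing of two such polynomials of degree `N` in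
  `v_j` is `(N + μ - 1)! / (μ - 1)!` times the pairing of the restrictions to `v_j = e_0` (`S_LEM`); the
  restrictions are `f' ^ (n + 1)` and `∑ n ^ k P_k f' ^ n` (`S_SLC`, `S_RED`). The same computation gives
  `⟨f ^ n, f ^ n⟩ = ∏_x (c_x n + μ_x - 1)! / (μ_x - 1)!`, and a functional equation, paired with `f ^ s`,
  shows that the polynomial above divides each `b`.
* Let `D = f(∂)` be the adjoint of the multiplication by `f`. `D f ^ (n + 1)` transforms like `f ^ n` under
  the group and the scalars (`S_ACTq`, `S_SUB`), and each such polynomial is a multiple of `f ^ n`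
  (`S_UNQq`): in the bases `A_w v_l` the data are contracted to a fixed point by a one-parameter group.
  So `D f ^ (s + 1) = b(s) f ^ s` with `b(n) = ⟨f ^ (n + 1), f ^ (n + 1)⟩ / ⟨f ^ n, f ^ n⟩`. -/

namespace Pool.Agent.Results.MP_b22d1f_ag.QuiverDeterminantsTwisted

open Pool.Agent.K1H70.KQ Pool.Agent.TH192.DT Polynomial

variable {I α ρ E : Type} [Fintype I] [DecidableEq I] [Fintype α] [Fintype ρ] [Fintype E]
  [DecidableEq E]

/-- **The twisted strong monodromy conjecture for `f = ∏_i (det (A_w v_l)_{(w, l) ∈ T_i}) ^ (a i)`**, with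
multiplicities, and the Bernstein-Sato polynomial of `f`. Here the `A_b` and `v_l` are a generic
representation of the framed quiver `Q`, `T_i` is the set of the pairs `(w, l)` of a path `w` from `ν l` to
`i` of weight less than `d l`, `e` is a bijection of the disjoint union `TQ Q ω d` of the `T_i` to the union
`E` of bases of the spaces at the vertices, and `μ x`, `cE x` are as in the header. Let `b` have a
functional equation, for instance `b = b_f`, and let `Z^(k)` be the twisted topological zeta function of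
`f`, computed on the resolution of the header (with arbitrary integers `χ` in the place of the Euler
characteristics of the strata). Then `b Z^(k)` is a polynomial for `k ≥ 1`, and it is `s + 1` times a
polynomial for `k ≥ 2`: each pole of `Z^(k)` is a root of `b`, for `k ≥ 2` of `b / (s + 1)`, of at least the
same multiplicity. -/
theorem result (Q : Qv I α ρ) (vt : E → I) (ω : α → ℕ) (d : ρ → ℕ) (e : TQ Q ω d ≃ E)
    (he : ∀ τ, vt (e τ) = τ.1.2) (a : I → ℕ) :
    ∃ μ : E → ℕ, ProfQ vt e μ ∧
      Pool.Agent.H628R4.TP.IsBernsteinSatoOf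
        (FQ Q vt ω d e a (MvPolynomial.X : VQ Q vt → MvPolynomial (VQ Q vt) ℂ))
        (∏ x : E, ∏ j ∈ Finset.range (cE Q vt e a x),
          (X + C (((μ x + j : ℕ) : ℂ) / (cE Q vt e a x : ℂ)))) ∧
      ∀ b : ℂ[X], Pool.Agent.H628R4.TP.IsBFunction
          (FQ Q vt ω d e a (MvPolynomial.X : VQ Q vt → MvPolynomial (VQ Q vt) ℂ)) b →
        ∀ (k : ℕ) (χ : Finset {x : E // 0 < cE Q vt e a x} → ℤ),
          (∃ P : ℂ[X], algebraMap ℂ[X] (RatFunc ℂ) b *
              twZ k (fun x => μ x.1) (fun x => cE Q vt e a x.1) χ =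
            algebraMap ℂ[X] (RatFunc ℂ) P) ∧
          (2 ≤ k → ∃ P : ℂ[X], algebraMap ℂ[X] (RatFunc ℂ) b *
              twZ k (fun x => μ x.1) (fun x => cE Q vt e a x.1) χ =
            algebraMap ℂ[X] (RatFunc ℂ) ((X + 1) * P)) := by
  classical
  have hdet := Pool.Agent.K1H24.KQ.t_DETq
  have hinv := Pool.Agent.K1H99.KQ.t_INVq
  have hact := Pool.Agent.K1H37.KQ.t_ACTq
  have hunq := Pool.Agent.K1H93.KQ.unq
  have hprf := Pool.Agent.K1H28.KQ.t_PRFq
  have hsub := Pool.Agent.K1H68.KG.t_SUB
  obtain ⟨μ, hμ⟩ := (hprf I α ρ E Q vt ω d e he).1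
  refine ⟨μ, hμ, isBS hdet hinv hact hsub hunq hprf ω d e he a μ hμ, ?_⟩
  intro b hb k χ
  obtain ⟨hp1, hp2⟩ := fc_all hdet hinv hprf ω a _ ρ E Q vt d e μ rfl he hμ
  have h1 := dvd_of_pairings μ _ (fun x => (hμ.2.1 x).1) _ hp1 hp2 b hb
  have h2 : (∏ x ∈ Finset.univ.filter (fun x : {x : E // 0 < cE Q vt e a x} => k ∣ cE Q vt e a x.1),
      (C ((cE Q vt e a x.1 : ℕ) : ℂ) * X + C ((μ x.1 : ℕ) : ℂ)) : ℂ[X]) =
      ∏ x ∈ Finset.univ.filter (fun x : E => 0 < cE Q vt e a x ∧ k ∣ cE Q vt e a x),
        (C ((cE Q vt e a x : ℕ) : ℂ) * X + C ((μ x : ℕ) : ℂ)) := by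
    rw [Finset.prod_filter, ← Finset.prod_subtype (Finset.univ.filter fun x : E => 0 < cE Q vt e a x)
      (fun x => by simp) fun x : E => if k ∣ cE Q vt e a x then
        (C ((cE Q vt e a x : ℕ) : ℂ) * X + C ((μ x : ℕ) : ℂ) : ℂ[X]) else 1, ← Finset.prod_filter,
      Finset.filter_filter]
  have h4 : (∏ x ∈ Finset.univ.filter (fun x : E => 0 < cE Q vt e a x ∧ k ∣ cE Q vt e a x),
      (C ((cE Q vt e a x : ℕ) : ℂ) * X + C ((μ x : ℕ) : ℂ)) : ℂ[X]) ∣ b := by
    refine dvd_trans ?_ h1
    refine dvd_trans (Finset.prod_dvd_prod_of_dvd _ (fun x => ∏ j ∈ Finset.range (cE Q vt e a x),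
      (C (cE Q vt e a x : ℂ) * X + C ((μ x + j : ℕ) : ℂ))) ?_)
      (Finset.prod_dvd_prod_of_subset _ _ _ (Finset.subset_univ _))
    intro x hx
    rw [Finset.mem_filter] at hx
    have h3 := Finset.dvd_prod_of_mem (fun j : ℕ => (C (cE Q vt e a x : ℂ) * X +
      C ((μ x + j : ℕ) : ℂ) : ℂ[X])) (Finset.mem_range.2 hx.2.1)
    simpa using h3
  constructor
  · obtain ⟨P, hP⟩ := Pool.Agent.K1H70.KT.twZ_mul k (fun x => μ x.1) (fun x => cE Q vt e a x.1) χ 1 b
      (fun x => (hμ.2.1 x.1).1) (fun _ => by rw [one_mul, h2]; exact h4)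
    exact ⟨1 * P, hP⟩
  · intro hk
    refine Pool.Agent.K1H70.KT.twZ_mul k (fun x => μ x.1) (fun x => cE Q vt e a x.1) χ (X + 1) b
      (fun x => (hμ.2.1 x.1).1) ?_
    rintro ⟨x0, _⟩
    obtain ⟨x1, hx1, hc1⟩ := Pool.Agent.K1H70.KT.ex_first Q vt ω d e he a μ hμ x0.1 x0.2
    rw [h2]
    exact dvd_trans (Pool.Agent.K1H70.KT.dvd_tw μ (cE Q vt e a) k hk x1 hx1 hc1) h1

end Pool.Agent.Results.MP_b22d1f_ag.QuiverDeterminantsTwisted
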