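import Pool.Agent.K1H20.SU.Cls

set_option autoImplicit false

/-! # Twisted topological zeta functions of sums, products and powers in disjoint variables

For a polynomial `f` let `Z₀` be the topological zeta function of `f = 0` (with the stratum `{f ≠ 0}`, so
that `Z^(1) = Z₀ - χ({f ≠ 0})`) and let `Z^(e)`, `e ≥ 2`, be the twisted ones. We consider

(S) `b Z₀` and `b Z^(e) / (s + 1)`, `e ≥ 2`, are polynomials, for every `b` with a functional equation
`b(s) f ^ s = P(s) f ^ (s + 1)`, in particular for the Bernstein-Sato polynomial `b_f`.

So every pole `s₀` of `Z^(e)`, `e ≥ 2`, is a root of `b_f(s) / (s + 1)` of at least the same multiplicity,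
and by the theorem of Malgrange and Kashiwara `exp(2 π i s₀)` is an eigenvalue of the monodromy of `f` at
some point of `f = 0`. We prove that (S) is inherited by

* the sums `f(x) + g(z)` in disjoint sets of variables, where `f` is arbitrary and `g` is weighted
  homogeneous of weight `1` for some rational weights of the variables `z` (for instance the suspensions
  `f(x) + z ^ m`, and `f(x) + g(z)` with any nonconstant homogeneous `g`),
* the products `f(x) g(z)` in disjoint sets of variables, and the powers `f ^ m`,
* the multiples `c f`, the images of `f` under the automorphisms of the polynomial ring, and dropping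
  variables which do not occur.

Without any hypothesis, (S) holds for all polynomials which are obtained in this way from the
monomials and the polynomials with very general coefficients at the vertices of the Newton polytope. For
example, all polynomials which can be written with nonzero coefficients, sums, products and powers in
such a way that every variable occurs only once, as `((x ^ 2 + y ^ 3) (u ^ 2 + v ^ 5) ^ 3 + z ^ 7) ^ 2 + w t ^ 4`;
they are weighted homogeneous of weight `1` for suitable weights, in general with nonisolated
singularities, not reduced, and degenerate with respect to their Newton polytopes.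

The functional equations. Let `α` and `β` be roots of `b(s) / (s + 1)` of the multiplicities `m` and `n`
for all functional equations of `f` and of `g`. Then `α + β` is a root of multiplicity `m + n - 1` of
`b(s) / (s + 1)` for all functional equations of `F = f + g` (`two_dvd`; this is Saito's Thom-Sebastiani
theorem for the microlocal `b`-function). Proof: write the operators as sums of `A ⊗ B` with `B`
homogeneous of weight `v` (`dec_weyl`), and take the part of weight `i` of the functional equation for
`F ^ (n + i)`. This gives
`b'(n + i) f^[n] g^[i] = ∑ (n + i) ^ k A f^[n + 1 + v] B g^[i - v]`, `f^[n] = f ^ n / n!`, where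
`b = (s + 1) b'` (`two_main`); the terms with `v ≥ 0` belong to the microlocal functional equations
of `f`, the ones with `v < 0` to those of `g` (`two_jet`). For a functional equation `b` of `f ^ m`,
`m ≥ 2`, one finds `b = (s + 1) b'` such that `b'(s / m)` satisfies one of `f` (`pow_fe`).

The zeta functions of `f + g` are derived in `Pool/Agent/K1H20/SU/Defs.lean`: they are Laplace transforms of
bilinear expressions in the exponential polynomials whose Laplace transforms are the zeta functions
of `f` and `g`. The exponents and the degrees of the polynomial parts give the poles and their orders.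

What the starting files have: the same for `∑ y_j f_j(x) + g(z)` with separate variables `y_j` which
occur linearly (`ts_dvd`, and my hand-in `ThomSebastianiTwisted`), of which the microlocal argument (`tA`,
`exists_psi`) is used here; `FM_mul` for the products; `GenericTwisted` as an atom. What is added: sums
of two arbitrary polynomials (no variable occurs linearly), the twisted zeta functions of these sums, where
all characters of `f` and `g` are mixed (`cnt`), and the powers. -/

namespace Pool.Agent.Results.MP_b22d1f_ag.SumsProductsPowersTwisted

open Pool.Agent.W574.SM Pool.Agent.W574.RO Pool.Agent.Y230.TH Pool.Agent.K1H20.TQ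
open Pool.Agent.K1H20.SU
open Pool.Agent.H628R4.TP (IsBFunction)

/-- The polynomials started from, with their zeta functions: the nonconstant monomials, the
polynomials with very general coefficients at the vertices of the Newton polytope and arbitrary other
terms, and every polynomial for which `b Z₀` and `b Z^(e) / (s + 1)`, `e ≥ 2`, are polynomials for all
functional equations (`KnownTw`). -/
def Start (σ : Type) (f : MvPolynomial σ ℂ) (Z₀ : RatFunc ℂ) (Z : ℕ → RatFunc ℂ) : Prop :=
  KnownTw ⟨σ, Fin 1, fun _ => f⟩ Z₀ Z

theorem start_sh (σ : Type) (f : MvPolynomial σ ℂ) (Z₀ : RatFunc ℂ) (Z : ℕ → RatFunc ℂ)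
    (h : Start σ f Z₀ Z) : Sh σ f Z₀ Z := by
  obtain ⟨h1, h2, h3⟩ := knownTw _ Z₀ Z h
  exact ⟨h1, h2, h3⟩

/-- **Twisted topological zeta functions of sums, products and powers.** Let `Clo Start σ f Z₀ Z` be
the least class of polynomials `f` in finitely many variables `σ`, together with their topological zeta
function `Z₀` and their twisted topological zeta functions `Z e`, `e ≥ 2`, which contains `Start` and is
closed under the sums `f(x) + g(z)` in disjoint sets of variables with `g` weighted homogeneous of weight
`1` for some rational weights, the products `f(x) g(z)` in disjoint sets of variables, the powers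
`f ^ m`, the multiples `c f`, the automorphisms of the polynomial ring, and dropping and renaming
variables.

Let `f` be in the class and let `b` satisfy a functional equation `b(s) f ^ s = P(s) f ^ (s + 1)`, for
instance the Bernstein-Sato polynomial of `f`. Then `b Z₀` is a polynomial, and `b Z^(e)` is `s + 1` times a
polynomial for all `e ≥ 2`. -/
theorem result {σ : Type} (f : MvPolynomial σ ℂ) (Z₀ : RatFunc ℂ) (Z : ℕ → RatFunc ℂ)
    (h : Clo Start σ f Z₀ Z) (b : Polynomial ℂ) (hb : IsBFunction f b) :
    (∃ P : Polynomial ℂ, algebraMap (Polynomial ℂ) (RatFunc ℂ) b * Z₀ =
      algebraMap (Polynomial ℂ) (RatFunc ℂ) P) ∧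
    ∀ e : ℕ, 2 ≤ e → ∃ P : Polynomial ℂ, algebraMap (Polynomial ℂ) (RatFunc ℂ) b * Z e =
      algebraMap (Polynomial ℂ) (RatFunc ℂ) ((Polynomial.X + 1) * P) := by
  have h1 := clo_sh Start start_sh σ f Z₀ Z h
  have hb' : IsFunctionalEq (fun _ : Fin 1 => f) b := Pool.Agent.Y230.PS.single_of_isB f b hb
  exact ⟨QQ_of_Cq _ Z₀ h1.cq b hb', fun e he => RQ_of_Cw _ _ (h1.cw e he) b hb'⟩

end Pool.Agent.Results.MP_b22d1f_ag.SumsProductsPowersTwisted
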