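import Pool.Agent.K1H20.TQ.Twist

set_option autoImplicit false

/-! # Twisted topological zeta functions of products and Thom-Sebastiani sums

For a hypersurface `f = 0` let `Z₀` be its topological zeta function (with the stratum `{f ≠ 0}`, so that
`Z^(1) = Z₀ - χ({f ≠ 0})`) and `Z^(e)`, `e ≥ 2`, the twisted ones. We consider the statement

(S) `b Z₀` and `b Z^(e) / (s + 1)`, `e ≥ 2`, are polynomials, for every `b` with a functional equation
`b(s) f ^ s = P(s) f ^ (s + 1)`, in particular for the Bernstein-Sato polynomial `b_f`.

So every pole `s₀` of `Z^(e)`, `e ≥ 2`, is a root of `b_f(s) / (s + 1)` of at least the same multiplicity,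
and by the theorem of Malgrange and Kashiwara `exp(2 π i s₀)` is an eigenvalue of the monodromy of `f` at
some point of `f = 0`. We prove that (S) is inherited by products `f(x) g(z)` in disjoint sets of variables,
and by the Thom-Sebastiani sums `F = ∑ y_j f_j(x) + g(z)`, where `g` satisfies (S) and the ideal
`I = (f_j)` satisfies `(Q2)`: `b Z_I` is a polynomial for every functional equation of the `f_j`.
Without any hypothesis this applies to the monomials `g`, for instance `z ^ m`, and to the polynomials `g`
with very general coefficients at the vertices of the Newton polytope and arbitrary other terms, and to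
all ideals `I` of `ℂ[x₁, x₂]`, all monomial ideals, the ideals with very general coefficients, and
to everything that is obtained from them by sums, products and these constructions.

The twisted zeta function of `F`. Over the points with `ord g(z) ≥ ord I(x)` the values of `F` are
equidistributed, as functions of `y`, so that they do not contribute to `Z_F^(e)`, `e ≥ 2`; for
`ord g(z) < ord I(x)` the order and the angular component of `F` are the ones of `g`. With
`1 - Z_I(s) = s ∫ V_I(t) exp(-s t) dt` (`V_I` is the limit of the volumes of `ord I ≥ t / (L - 1)`, an
exponential polynomial) and `Z_g^(e)(s) = ∫ U_e(t) exp(-s t) dt` one obtains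
`Z_F^(e)(s) = ∫ V_I(t) U_e(t) exp(-s t) dt`. For instance, for `F = y x + z ^ 2` we have `V_I = exp(-t)`,
`U_2 = exp(-t / 2) / 2` and `Z_F^(2) = 1 / (2 s + 3)`. For `f(x) g(z)` the twisted zeta functions including the
stratum `f g ≠ 0` are multiplied, which gives
`Z_{fg}^(e) = Z_f^(e) Z_g^(e) + χ({f ≠ 0}) Z_g^(e) + χ({g ≠ 0}) Z_f^(e)`.

The proof. If `α` and `β` are poles of `Z_I` and `Z_g^(e)` of orders `k` and `l`, then `V_I U_e` contains
`t ^ (k + l - 2) exp((α + β) t)`, which gives a pole of order `k + l - 1` at `α + β`. On the other side
`α` is a root of multiplicity `k` of every functional equation of `I`, and `β` is one of multiplicity `l` of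
`b(s) / (s + 1)` for every functional equation `b` of `g`; then `α + β` is a root of multiplicity `k + l - 1`
of `b_F(s) / (s + 1)` (starting files: `ts_dvd`, by the microlocal `b`-function).

What the starting files have: the divisibility `ts_dvd`; poles of the untwisted zeta functions of
Thom-Sebastiani sums as roots, without multiplicities (`tt_closure`, for `MP_504089_ag`); and
`GenericTwisted`, used here for the hypersurfaces with very general coefficients. What is added: the
twisted zeta functions of Thom-Sebastiani sums and products (in the starting files on this problem only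
`f + ∑ y_i z_i`, in `NondegenerateCompositionsTwisted`, and products of powers of forms), the
orders of the poles (`lap_order`, `lap2_order`), the comparison with `b / (s + 1)` (`tw_closure`), and
arbitrary hypersurfaces with (S) and ideals with (Q2) as starting points (`Cq_of_QQ`, `Cw_of_RQ`). -/

namespace Pool.Agent.Results.MP_b22d1f_ag.ThomSebastianiTwisted

open Pool.Agent.W574.SM Pool.Agent.W574.RO Pool.Agent.Y230.TH Pool.Agent.K1H20.TQ
open Pool.Agent.H628R4.TP (IsBFunction)

/-- **Twisted topological zeta functions of products and Thom-Sebastiani sums in disjoint variables.**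
Let `TW A Z₀ Z` be the least class of hypersurfaces `A` (families with one element, in finitely many
variables) together with their topological zeta function `Z₀` and their twisted topological zeta functions
`Z e`, `e ≥ 2`, which contains (`KnownTw`)

* the nonconstant monomials and the polynomials with very general coefficients at the vertices of the
  Newton polytope and arbitrary other terms,
* every hypersurface for which `b Z₀` and `b Z^(e) / (s + 1)`, `e ≥ 2`, are polynomials for all functional
  equations (`any`; zeta functions with arbitrary numerical data of an embedded resolution),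

and which is closed under products in disjoint sets of variables (`mul`), contains `∑ y_j f_j(x)` and
`∑ y_j f_j(x) + g(z)` (`univ`, `ts`) for `g` in the class and for the ideals `(f_j)` in the class
`TT Known KnownHyp false` (all ideals of `ℂ[x₁, x₂]`, monomial ideals, ideals with very general
coefficients, any ideal for which `b Z` is a polynomial for all functional equations, and everything
obtained from them and from such hypersurfaces by sums, products and these constructions), and is closed
under dropping variables which do not occur and under renaming.

Let `f` be in the class and let `b` satisfy a functional equation `b(s) f ^ s = P(s) f ^ (s + 1)`, for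
instance the Bernstein-Sato polynomial of `f`. Then `b Z₀` is a polynomial, and `b Z^(e)` is `s + 1` times a
polynomial for all `e ≥ 2`. -/
theorem result {σ : Type} (f : MvPolynomial σ ℂ) (Z₀ : RatFunc ℂ) (Z : ℕ → RatFunc ℂ)
    (h : TW ⟨σ, Fin 1, fun _ => f⟩ Z₀ Z) (b : Polynomial ℂ) (hb : IsBFunction f b) :
    (∃ P : Polynomial ℂ, algebraMap (Polynomial ℂ) (RatFunc ℂ) b * Z₀ =
      algebraMap (Polynomial ℂ) (RatFunc ℂ) P) ∧
    ∀ e : ℕ, 2 ≤ e → ∃ P : Polynomial ℂ, algebraMap (Polynomial ℂ) (RatFunc ℂ) b * Z e =
      algebraMap (Polynomial ℂ) (RatFunc ℂ) ((Polynomial.X + 1) * P) := by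
  obtain ⟨h1, h2, h3⟩ := tw_closure _ Z₀ Z h
  have hb' : IsFunctionalEq (fun _ : Fin 1 => f) b := Pool.Agent.Y230.PS.single_of_isB f b hb
  exact ⟨QQ_of_Cq _ Z₀ h1 b hb', fun e he => RQ_of_Cw _ _ (h3 e he) b hb'⟩

end Pool.Agent.Results.MP_b22d1f_ag.ThomSebastianiTwisted
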