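import Pool.Agent.K1H50.QC.Cone

set_option autoImplicit false

/-! # Twisted topological zeta functions of forms over ideals with big weighted tangent cones

Let `g t j ∈ ℂ[x_i]`, `t ∈ T`, be generators of ideals `I_t ≠ 0` (in any number of variables), let
`F_t = ∑_j y_{t,j} g_{t,j}(x)` with further variables `y_{t,j}`, separate for each `t` (`blockForm`), and
let `f = ∏ t, F_t ^ a t` (`powProd`). Let `Y` be a log resolution of the product of the `I_t` with
`a t > 0`, with the components `E_i`, `i ∈ I`; let `k i` be the multiplicity of `E_i` in the relative
canonical divisor and `m i t` the order of `I_t` along `E_i`. Then `Y` times the space of the `y` is an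
embedded resolution of `f`, with the components `E_i`, with `ν_i = k i + 1` and `N_i = ∑ t, a t * m i t`,
and the strict transforms of `F_t = 0`, with `ν = 1` and `N = a t` (`nuR`, `mulR`), because locally on
`Y` the form `F_t` is one of the `g_{t,j}` times a function `y_{t,j} + ∑_{l ≠ j} h_l y_{t,l}`.

The starting hand-in `ReesTwisted` has the twisted monodromy conjecture for `f` under the condition
that the `E_i` whose multiplicity is divisible by `e` are Rees divisors of the product of the ideals. In
this form it is a condition on the formal charts of the resolution. The new part here is a criterion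
in terms of leading forms, which needs no chart, no homogeneity of the ideals and no linear or product
structure, and which is invariant under transversal pull-backs.

**The criterion** (`BigConeOn`). Let `Z = {h_1 = ⋯ = h_ν = 0}` be a germ at `p` of a smooth variety of
codimension `ν`, and give `h_r` the weight `w_r ≥ 1`. Near `p` every generator is a sum
`g_{t,j} = ∑_d c_d(x) h ^ d` (up to a factor `u`, `u(p) ≠ 0`) over exponents `d` with `w · d ≥ m_t`, and it
has the leading form `G_{t,j}(Y) = ∑_{w · d = m_t} c_d(p) Y ^ d` at `p`. The joint cone of the ideals is
big if for each `t` some `G_{t,j} ≠ 0` and if the products `∏_{t : a t ≠ 0} G_{t,e(t)}(Y)` contain `ν`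
algebraically independent ones (Jacobian determinant `≠ 0`). Then the exceptional divisor `E` of the
weighted blow-up of `Z` is a Rees divisor of `∏_{a t ≠ 0} I_t`, with `k_E + 1 = ∑ w_r` and the orders
`m_t` (`big_chart`; for `gcd(w) = 1` these are the numbers of the divisor `E`, in general they are
multiples of them, with the same quotients).

Examples. (a) All weights `1`, `Z` smooth, and ideals `I_t` which are near a point of `Z` the powers
`I(Z) ^ (m_t)`. (b) Facets of the Newton polyhedra of the product of the ideals in any system of local
coordinates `h` (the leading forms are the parts of the `g_{t,j}` on the facet; the facet need not be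
compact, and the coefficients may depend on the point of `Z`). (c) Semi-quasi-homogeneous ideals: the
`g_{t,j}` have weighted initial forms of the degree `m_t`, `ν` of them without a common zero outside
the origin; all other terms are of higher weight and arbitrary. (d) All transversal pull-backs of
these, by part (2). -/

namespace Pool.Agent.Results.MP_b22d1f_ag.WeightedTangentConesTwisted

open MvPolynomial Pool.Agent.H628R4.TP Pool.Agent.TH192.DT Pool.Agent.Y231.RF Pool.Agent.K1H50.QC

/-- **The twisted monodromy conjecture for `f = ∏ t, F_t ^ a t`, `F_t = ∑_j y_{t,j} g_{t,j}(x)`, if the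
exceptional divisors come from weighted blow-ups with big joint cones.**

(1) Suppose that for every `E_i` with `N_i > 0`, `e ∣ N_i`, which occurs in a stratum with `χ J ≠ 0`, the
number `ν_i / N_i` comes from a big cone (`FromCone`): there are a point `p`, a smooth germ `Z` at `p`
with weighted equations `h_r` of weights `w_r` for which the joint cone of the ideals `I_t`, `a t ≠ 0`,
is big, with the orders `m_t`, and exponents `α_r` with `∑ w_r α_r < N = ∑ a_t m_t`, such that
`ν_i / N_i = (∑ w_r (α_r + 1)) / N` (if `E_i` itself is the divisor of the weighted blow-up, this holds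
with `α = 0`). Then every pole `s₀` of the twisted topological zeta function `Z^(e)` of `f`, computed on
the resolution described above (with arbitrary integers `χ` in the place of the Euler characteristics
of the strata), is a root of every polynomial `b` with `b(s) f ^ s = P(s) f ^ (s + 1)`, in particular of
the Bernstein-Sato polynomial of `f`; so, by the theorem of Malgrange and Kashiwara, `exp(2 π i s₀)` is
an eigenvalue of the monodromy of `f` at some point. Nothing is assumed about the components whose
multiplicity is not divisible by `e`.

(2) The condition is invariant under transversal pull-backs: let `φ` be a polynomial map with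
`φ(q) = p` such that the differentials at `q` of the functions `h_r ∘ φ` are linearly independent (`φ` is
transversal to `Z` at `q`). If the joint cone of the `g_{t,j}` for the equations `h_r` is big at `p`, then
the one of the `g_{t,j} ∘ φ` for the `h_r ∘ φ` is big at `q`, with the same weights and orders. -/
theorem result :
    (∀ {σ T I : Type} [Fintype σ] [DecidableEq σ] [Fintype T] [DecidableEq T] [Fintype I]
      {κ : T → Type} [∀ t, Fintype (κ t)] [∀ t, DecidableEq (κ t)]
      (g : (t : T) → κ t → MvPolynomial σ ℂ) (_ : ∀ t, ∃ j, g t j ≠ 0) (a : T → ℕ)
      (k : I → ℕ) (m : I → T → ℕ) (χ : Finset (I ⊕ T) → ℤ) (e : ℕ)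
      (_ : ∀ i, 0 < ∑ t, a t * m i t → e ∣ ∑ t, a t * m i t → (∃ J, χ J ≠ 0 ∧ Sum.inl i ∈ J) →
        FromCone g a 1 (k i + 1) (∑ t, a t * m i t))
      (s₀ : ℂ) (_ : (twZ e (nuR k T) (mulR a m) χ).denom.eval s₀ = 0)
      (b : Polynomial ℂ) (_ : IsBFunction (powProd a g) b), b.eval s₀ = 0) ∧
    ∀ {σ σ' T ρ : Type} [Fintype σ] [DecidableEq σ] [Fintype σ'] [DecidableEq σ'] [Fintype T]
      [DecidableEq T] {κ : T → Type} [∀ t, Fintype (κ t)] [∀ t, DecidableEq (κ t)] [Fintype ρ]
      [DecidableEq ρ] (g : (t : T) → κ t → MvPolynomial σ ℂ) (A : Finset T) (w : ρ → ℕ)
      (m : T → ℕ) (p : σ → ℂ) (h : ρ → MvPolynomial σ ℂ) (φ : σ → MvPolynomial σ' ℂ) (q : σ' → ℂ),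
      BigConeOn g A w m p h → (∀ i, eval q (φ i) = p i) →
      (LinearIndependent ℂ fun (r : ρ) (i : σ') => eval q (pderiv i (aeval φ (h r)))) →
      BigConeOn (fun t j => aeval φ (g t j)) A w m q (fun r => aeval φ (h r)) :=
  ⟨fun g hg a k m χ e hE s₀ hs b hb => Pool.Agent.Y228.RR.tw_global g hg a k m χ e
    (fun i hi he hJ => (hE i hi he hJ).rees) s₀ hs b hb,
   fun _ _ _ _ _ _ φ q hp hq hli => hp.pullback φ q hq hli⟩

end Pool.Agent.Results.MP_b22d1f_ag.WeightedTangentConesTwisted
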